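import Mathlib
import Pool.Agent.Lib.MP_def192_nt.Bounds

set_option autoImplicit false

/-!
# Primitive-set density under power weightings

For `0 ≤ σ₁ < σ₂ ≤ 1` and all large `n` we prove `F(f_{σ₂}, n) < F(f_{σ₁}, n)`, where `F(f, n)` is
the largest `f`-share of a primitive subset of `{1, …, n}` and `f_σ(m) = m ^ (-σ)`.
-/

namespace Pool.Agent.Results.MP_def192_nt.PowerWeightMonotone

/-- A finite set of natural numbers is primitive if no element divides a different element. -/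
def IsPrimitiveSet (A : Finset ℕ) : Prop :=
  ∀ a ∈ A, ∀ b ∈ A, a ≠ b → ¬ a ∣ b

/-- `S(f, A)`, the sum of `f` over `A`. -/
noncomputable def S (f : ℕ → ℝ) (A : Finset ℕ) : ℝ :=
  ∑ a ∈ A, f a

/-- `δ(f, A, n) = S(f, A) / S(f, [n])`. -/
noncomputable def share (f : ℕ → ℝ) (A : Finset ℕ) (n : ℕ) : ℝ :=
  S f A / S f (Finset.Icc 1 n)

theorem empty_isPrimitiveSet : IsPrimitiveSet ∅ := by
  intro a ha
  simp at ha

open Classical in
theorem primitive_nonempty (n : ℕ) :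
    ((Finset.Icc 1 n).powerset.filter IsPrimitiveSet).Nonempty :=
  ⟨∅, Finset.mem_filter.2 ⟨Finset.mem_powerset.2 (Finset.empty_subset _), empty_isPrimitiveSet⟩⟩

open Classical in
/-- `F(f, n)`: the maximum of `δ(f, A, n)` over all primitive `A ⊆ {1, …, n}`. -/
noncomputable def F (f : ℕ → ℝ) (n : ℕ) : ℝ :=
  ((Finset.Icc 1 n).powerset.filter IsPrimitiveSet).sup' (primitive_nonempty n)
    fun A => share f A n

/-- The power weighting `f_σ(m) = m ^ (-σ)`. -/
noncomputable def powerWeight (σ : ℝ) : ℕ → ℝ :=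
  fun m => (m : ℝ) ^ (-σ)

open Pool.Agent.Lib.MP_def192_nt

theorem prim_iff (A : Finset ℕ) : IsPrimitiveSet A ↔ Prim A := by
  constructor
  · intro h a ha b hb hab
    by_contra hne
    exact h a ha b hb hne hab
  · intro h a ha b hb hne hab
    exact hne (h a ha b hb hab)

theorem share_eq (s : ℝ) (A : Finset ℕ) (n : ℕ) :
    share (powerWeight s) A n = (∑ a ∈ A, w s a) / W s n := rfl

theorem le_F (s : ℝ) (n : ℕ) (A : Finset ℕ) (hA : A ⊆ Finset.Icc 1 n) (hp : Prim A) :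
    (∑ a ∈ A, w s a) / W s n ≤ F (powerWeight s) n := by
  classical
  unfold F
  rw [← share_eq]
  apply Finset.le_sup' (f := fun A => share (powerWeight s) A n)
  rw [Finset.mem_filter, Finset.mem_powerset]
  exact ⟨hA, (prim_iff A).2 hp⟩

theorem exists_opt (s : ℝ) (n : ℕ) :
    ∃ A : Finset ℕ, A ⊆ Finset.Icc 1 n ∧ Prim A ∧ F (powerWeight s) n = (∑ a ∈ A, w s a) / W s n := by
  classical
  obtain ⟨A, hA, h⟩ := Finset.exists_mem_eq_sup' (primitive_nonempty n)
    (fun A => share (powerWeight s) A n)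
  rw [Finset.mem_filter, Finset.mem_powerset] at hA
  refine ⟨A, hA.1, (prim_iff A).1 hA.2, ?_⟩
  rw [← share_eq]
  unfold F
  convert h

theorem F_nonneg (s : ℝ) (n : ℕ) : 0 ≤ F (powerWeight s) n := by
  have := le_F s n ∅ (by simp) (by intro a ha; simp at ha)
  simpa using this

theorem F_le_one {s : ℝ} (n : ℕ) : F (powerWeight s) n ≤ 1 := by
  obtain ⟨A, hA, hp, h⟩ := exists_opt s n
  rw [h]
  apply div_le_one_of_le₀ _ (W_nonneg s n)
  exact Finset.sum_le_sum_of_subset_of_nonneg hA (fun _ _ _ => w_nonneg _ _)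

theorem F_lower {s : ℝ} (hs : 0 ≤ s) (hs1 : s < 1) (n : ℕ) (hn : 0 < n) :
    (1 - s) / 2 ≤ F (powerWeight s) n := by
  obtain ⟨h1, h2, h3⟩ := lower_set hs hs1 n hn
  refine le_trans ?_ (le_F s n _ h2 h1)
  rw [le_div_iff₀ (W_pos hs hn)]
  exact h3

/-- **Full answer to Q1.** For all real `0 ≤ σ₁ < σ₂ ≤ 1` there is `n₀` such that
`F(f_{σ₁}, n) > F(f_{σ₂}, n)` for every `n > n₀`. -/
theorem result : ∀ σ₁ σ₂ : ℝ, 0 ≤ σ₁ → σ₁ < σ₂ → σ₂ ≤ 1 →
    ∃ n₀ : ℕ, ∀ n : ℕ, n₀ < n → F (powerWeight σ₂) n < F (powerWeight σ₁) n := by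
  intro s1 s2 h0 h12 h2
  rcases eq_or_lt_of_le h2 with h2 | h2
  · -- the case `σ₂ = 1`
    subst h2
    have hη : 0 < (1 - s1) / 4 := by linarith
    obtain ⟨N, hN⟩ := upper_one hη
    refine ⟨N, fun n hn => ?_⟩
    have hn0 : 0 < n := by omega
    obtain ⟨A, hA, hp, h⟩ := exists_opt 1 n
    have h3 := hN n hn.le A hA hp
    have h4 : F (powerWeight 1) n ≤ (1 - s1) / 4 := by
      rw [h, div_le_iff₀ (W_pos zero_le_one hn0)]
      exact h3
    have h5 := F_lower h0 h12 n hn0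
    linarith
  · -- the case `σ₂ < 1`
    have hs2 : 0 ≤ s2 := by linarith
    set U : Set ℝ := {c : ℝ | ∃ N : ℕ, ∀ n ≥ N, F (powerWeight s2) n ≤ c} with hU
    have hUne : U.Nonempty := ⟨1, 0, fun n _ => F_le_one n⟩
    have hUbd : ∀ c ∈ U, (1 - s2) / 2 ≤ c := by
      rintro c ⟨N, hN⟩
      exact le_trans (F_lower hs2 h2 (N + 1) (by omega)) (hN (N + 1) (by omega))
    have hUbb : BddBelow U := ⟨(1 - s2) / 2, hUbd⟩
    set C := sInf U with hC
    have hC0 : 0 < C := lt_of_lt_of_le (by linarith : 0 < (1 - s2) / 2) (le_csInf hUne hUbd)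
    have hup : ∀ ε > 0, ∃ N : ℕ, ∀ n ≥ N, F (powerWeight s2) n ≤ C + ε := by
      intro ε hε
      obtain ⟨c, ⟨N, hN⟩, hc⟩ := exists_lt_of_csInf_lt hUne (by linarith : sInf U < C + ε)
      exact ⟨N, fun n hn => (hN n hn).trans hc.le⟩
    have hfreq : ∀ ε > 0, ∀ N : ℕ, ∃ n ≥ N, C - ε ≤ F (powerWeight s2) n := by
      intro ε hε N
      by_contra hcon
      push Not at hcon
      have : C - ε ∈ U := ⟨N, fun n hn => (hcon n hn).le⟩
      have := csInf_le hUbb this
      linarith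
    obtain ⟨c, hc, ε, hε, hεC, hgain⟩ := gain h0 h12 h2 hC0
    obtain ⟨N0, hN0⟩ := hup ε hε
    obtain ⟨N1, hN1⟩ := hgain (max N0 1) (by
      intro j hj A hA hp
      have hj0 : 0 < j := by have := le_max_right N0 1; omega
      have h3 := le_trans (le_F s2 j A hA hp) (hN0 j (le_trans (le_max_left _ _) hj))
      rwa [div_le_iff₀ (W_pos hs2 hj0)] at h3)
    obtain ⟨N2, hN2⟩ := transfer h0 (by linarith : s1 < 1) (η := c / 4) (by positivity)
    obtain ⟨m, hm, hmF⟩ := hfreq ε hε (max (max N1 N2) 1)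
    have hm1 : N1 ≤ m := le_trans (le_trans (le_max_left _ _) (le_max_left _ _)) hm
    have hm2 : N2 ≤ m := le_trans (le_trans (le_max_right _ _) (le_max_left _ _)) hm
    have hm0 : 0 < m := lt_of_lt_of_le Nat.one_pos (le_trans (le_max_right _ _) hm)
    obtain ⟨A, hA, hp, hFA⟩ := exists_opt s2 m
    have h3 := hN1 m hm1 A hA hp (by
      rw [hFA, le_div_iff₀ (W_pos hs2 hm0)] at hmF
      exact hmF)
    obtain ⟨N3, hN3⟩ := hN2 m hm2 A hA hp
    obtain ⟨N4, hN4⟩ := hup (c / 4) (by positivity)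
    refine ⟨max N3 N4, fun n hn => ?_⟩
    have hn3 : N3 ≤ n := le_trans (le_max_left _ _) hn.le
    have hn4 : N4 ≤ n := le_trans (le_max_right _ _) hn.le
    have hn0 : 0 < n := by omega
    obtain ⟨B, hB1, hB2, hB3⟩ := hN3 n hn3
    have h4 : (C + c) ≤ (∑ a ∈ A, w s1 a) / W s1 m := by
      rw [le_div_iff₀ (W_pos h0 hm0)]
      exact h3
    have h5 : C + c - c / 4 ≤ F (powerWeight s1) n := by
      refine le_trans ?_ (le_F s1 n B hB1 hB2)
      rw [le_div_iff₀ (W_pos h0 hn0)]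
      refine le_trans ?_ hB3
      apply mul_le_mul_of_nonneg_right _ (W_nonneg _ _)
      linarith
    have h6 := hN4 n hn4
    linarith

end Pool.Agent.Results.MP_def192_nt.PowerWeightMonotone
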